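import Mathlib
import Pool.Agent.H454.HT.Main

/-!
# The Hall–Lang conjecture is equivalent to a polynomial bound for the quartic Thue equations

Consider all the integral binary quartic forms `F = (a, b, c, d, e)` of nonzero discriminant at once,
and the integral solutions of the Thue equations `F(p, q) = m`. The Hall–Lang conjecture (all integral
points of all elliptic curves `y² = x³ + A x + B` are bounded by a power of `max |A| |B|`) is
equivalent to

* a bound `max |p| |q| ≤ K H(F) ^ M` for the solutions of all the equations `F(p, q) = 1`;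
* a bound `max |p| |q| ≤ K max(H(F), |m|) ^ M` for the solutions of all the equations `F(p, q) = m ≠ 0`.

Quantitatively: `|x| ≤ K max(|A|, |B|) ^ μ`, `μ ≥ 1`, implies
`max |p| |q| ≤ K' H(F) ^ ((10 + 3 μ) / 4) |m| ^ (3 μ / 4)`; and `max |p| |q| ≤ K H(F) ^ τ` for `m = 1` implies
`|x| ≤ K' max(|A|, |B|) ^ max(2, 1 + 8 τ)`.

Proof. From the curves to the forms: `(3 g₄(p, q), 27 g₆(p, q))` (`g₄`, `g₆` the covariants) is an
integral point of `Y² = X³ - 432 I m² X - 1728 J m³`, and `max |p| |q|` is bounded in terms of `F(p, q)`,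
`g₄(p, q)` and `H(F)`, by `q² g₄ = 3 F_p² - 4 F F_pp`, `p² g₄ = 3 F_q² - 4 F F_qq` and the elimination of one
variable from the two derivatives `F_p`, `F_q`. From the forms to the curves: the quartic of the
halves of the point `(x, y)` takes the value `1` at `(1, 0)` and can be reduced to a form of height
`O(H ^ 2)` (theorem `t_RED2` of `Pool.Agent.W257.HL` of the starting library); if it has a rational
zero, the point is divisible by two (theorem `part1` of `Pool.Agent.Y674.HL`).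
-/

set_option autoImplicit false

namespace Pool.Agent.Results.MP_a1107e_nt.QuarticThueEquations

/-- The Hall–Lang conjecture, as in the problem file. -/
def HallLang : Prop := ∃ K M : ℝ, 0 < K ∧ 0 < M ∧
  ∀ A B x y : ℤ, 4 * A ^ 3 + 27 * B ^ 2 ≠ 0 → y ^ 2 = x ^ 3 + A * x + B →
    ((max |x| |y| : ℤ) : ℝ) ≤ K * ((max |A| |B| : ℤ) : ℝ) ^ M

/-- The value `F(p, q)` of the binary quartic form with the coefficients `a, b, c, d, e`. -/
def form (a b c d e p q : ℤ) : ℤ :=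
  a * p ^ 4 + b * p ^ 3 * q + c * p ^ 2 * q ^ 2 + d * p * q ^ 3 + e * q ^ 4

/-- The discriminant of the binary quartic form. -/
def disc (a b c d e : ℤ) : ℤ :=
  256 * a ^ 3 * e ^ 3 - 192 * a ^ 2 * b * d * e ^ 2 - 128 * a ^ 2 * c ^ 2 * e ^ 2 +
  144 * a ^ 2 * c * d ^ 2 * e - 27 * a ^ 2 * d ^ 4 + 144 * a * b ^ 2 * c * e ^ 2 -
  6 * a * b ^ 2 * d ^ 2 * e - 80 * a * b * c ^ 2 * d * e + 18 * a * b * c * d ^ 3 +
  16 * a * c ^ 4 * e - 4 * a * c ^ 3 * d ^ 2 - 27 * b ^ 4 * e ^ 2 + 18 * b ^ 3 * c * d * e -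
  4 * b ^ 3 * d ^ 3 - 4 * b ^ 2 * c ^ 3 * e + b ^ 2 * c ^ 2 * d ^ 2

/-- The height of the form: the maximum of the absolute values of the coefficients. -/
def height (a b c d e : ℤ) : ℤ := max |a| (max |b| (max |c| (max |d| |e|)))

/-- A polynomial bound for the solutions of all the equations `F(p, q) = 1`. -/
def UnitThue : Prop := ∃ K M : ℝ, 0 < K ∧ 0 < M ∧
  ∀ a b c d e p q : ℤ, disc a b c d e ≠ 0 → form a b c d e p q = 1 →
    ((max |p| |q| : ℤ) : ℝ) ≤ K * ((height a b c d e : ℤ) : ℝ) ^ M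

/-- A polynomial bound for the solutions of all the quartic Thue equations `F(p, q) = m`. -/
def Thue : Prop := ∃ K M : ℝ, 0 < K ∧ 0 < M ∧
  ∀ a b c d e p q m : ℤ, disc a b c d e ≠ 0 → m ≠ 0 → form a b c d e p q = m →
    ((max |p| |q| : ℤ) : ℝ) ≤ K * ((max (height a b c d e) |m| : ℤ) : ℝ) ^ M

/-- The bound `|x| ≤ K max(|A|, |B|) ^ μ` for all integral points of all elliptic curves. -/
def AbscissaBound (μ : ℝ) : Prop := ∃ K : ℝ, 0 < K ∧ ∀ A B x y : ℤ, 4 * A ^ 3 + 27 * B ^ 2 ≠ 0 →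
  y ^ 2 = x ^ 3 + A * x + B → ((|x| : ℤ) : ℝ) ≤ K * ((max |A| |B| : ℤ) : ℝ) ^ μ

/-- The bound `max |p| |q| ≤ K H(F) ^ τ` for the solutions of all the equations `F(p, q) = 1`. -/
def UnitThueBound (τ : ℝ) : Prop := ∃ K : ℝ, 0 < K ∧ ∀ a b c d e p q : ℤ, disc a b c d e ≠ 0 →
  form a b c d e p q = 1 →
    ((max |p| |q| : ℤ) : ℝ) ≤ K * ((height a b c d e : ℤ) : ℝ) ^ τ

/-- The bound `max |p| |q| ≤ K H(F) ^ τ |m| ^ σ` for the solutions of all the equations
`F(p, q) = m`. -/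
def ThueBound (τ σ : ℝ) : Prop := ∃ K : ℝ, 0 < K ∧ ∀ a b c d e p q m : ℤ,
  disc a b c d e ≠ 0 → m ≠ 0 → form a b c d e p q = m →
    ((max |p| |q| : ℤ) : ℝ) ≤ K * ((height a b c d e : ℤ) : ℝ) ^ τ * ((|m| : ℤ) : ℝ) ^ σ

/-- The height is at least one. -/
theorem height_pos {a b c d e : ℤ} (h : disc a b c d e ≠ 0) :
    (1 : ℝ) ≤ ((height a b c d e : ℤ) : ℝ) := by
  exact_mod_cast Pool.Agent.H454.HT.ht_pos h

/-- The height of a nonsingular curve is at least one. -/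
theorem curve_pos {A B : ℤ} (h : 4 * A ^ 3 + 27 * B ^ 2 ≠ 0) :
    (1 : ℝ) ≤ ((max |A| |B| : ℤ) : ℝ) := by
  have h1 : 1 ≤ max |A| |B| := by
    by_contra hcon
    have h0 : max |A| |B| ≤ 0 := by omega
    have hA : A = 0 := abs_eq_zero.1 (le_antisymm ((le_max_left _ _).trans h0) (abs_nonneg A))
    have hB : B = 0 := abs_eq_zero.1 (le_antisymm ((le_max_right _ _).trans h0) (abs_nonneg B))
    apply h
    rw [hA, hB]
    norm_num
  exact_mod_cast h1

theorem quantitative : (∀ μ : ℝ, 1 ≤ μ → AbscissaBound μ → ThueBound ((10 + 3 * μ) / 4) (3 * μ / 4)) ∧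
    ∀ τ : ℝ, 0 < τ → UnitThueBound τ → AbscissaBound (max 2 (1 + 8 * τ)) :=
  ⟨fun _ hμ h => Pool.Agent.H454.HT.thue_of_hl hμ h,
    fun _ hτ h => Pool.Agent.H454.HT.hl_of_thue hτ h⟩

theorem hall_of_abscissa {μ : ℝ} (hμ : 1 ≤ μ) (h : AbscissaBound μ) : HallLang := by
  obtain ⟨K, hK, hb⟩ := h
  refine ⟨K ^ 3 + K + 1, 3 * μ, by positivity, by linarith, fun A B x y hns hE => ?_⟩
  have hx := hb A B x y hns hE
  obtain ⟨H, hH⟩ : ∃ H : ℝ, H = ((max |A| |B| : ℤ) : ℝ) := ⟨_, rfl⟩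
  have hH1 : 1 ≤ H := by rw [hH]; exact curve_pos hns
  rw [← hH] at hx ⊢
  obtain ⟨U, hU⟩ : ∃ U : ℝ, U = H ^ μ := ⟨_, rfl⟩
  have hHU : H ≤ U := by
    rw [hU]
    calc H = H ^ (1 : ℝ) := (Real.rpow_one _).symm
      _ ≤ _ := Real.rpow_le_rpow_of_exponent_le hH1 hμ
  have hU1 : 1 ≤ U := hH1.trans hHU
  have hU3 : H ^ (3 * μ) = U ^ 3 := by
    rw [hU, ← Real.rpow_natCast, ← Real.rpow_mul (by linarith)]
    congr 1
    push_cast
    ring
  rw [← hU] at hx
  rw [hU3]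
  rw [Int.cast_abs] at hx
  have hA : |(A : ℝ)| ≤ H := by
    rw [hH, Int.cast_max, Int.cast_abs, Int.cast_abs]
    exact le_max_left _ _
  have hB : |(B : ℝ)| ≤ H := by
    rw [hH, Int.cast_max, Int.cast_abs, Int.cast_abs]
    exact le_max_right _ _
  have hx0 : 0 ≤ |(x : ℝ)| := abs_nonneg _
  have hU2 : U ≤ U ^ 2 := by nlinarith
  have hU23 : U ^ 2 ≤ U ^ 3 := by nlinarith [sq_nonneg U]
  have hER : (y : ℝ) ^ 2 = (x : ℝ) ^ 3 + A * x + B := by exact_mod_cast hE
  have h1 : (y : ℝ) ^ 2 ≤ (K ^ 3 + K + 1) * U ^ 3 := by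
    have e1 : (x : ℝ) ^ 3 ≤ K ^ 3 * U ^ 3 := by
      calc (x : ℝ) ^ 3 ≤ |(x : ℝ)| ^ 3 := by
            rw [← abs_pow]; exact le_abs_self _
        _ ≤ (K * U) ^ 3 := pow_le_pow_left₀ hx0 hx 3
        _ = _ := by ring
    have e2 : (A : ℝ) * x ≤ K * U ^ 2 := by
      calc (A : ℝ) * x ≤ |(A : ℝ) * x| := le_abs_self _
        _ = |(A : ℝ)| * |(x : ℝ)| := abs_mul _ _
        _ ≤ U * (K * U) := mul_le_mul (hA.trans hHU) hx hx0 (by linarith)
        _ = _ := by ring
    have e3 : (B : ℝ) ≤ U := (le_abs_self _).trans (hB.trans hHU)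
    rw [hER]
    nlinarith
  have hy : |(y : ℝ)| ≤ (K ^ 3 + K + 1) * U ^ 3 := by
    refine le_trans ?_ h1
    rcases eq_or_ne y 0 with h0 | h0
    · rw [h0]; norm_num
    · have : 1 ≤ |(y : ℝ)| := by
        rw [← Int.cast_abs]
        exact_mod_cast Int.one_le_abs h0
      rw [← sq_abs]
      nlinarith
  have hx' : |(x : ℝ)| ≤ (K ^ 3 + K + 1) * U ^ 3 := by
    refine hx.trans ?_
    have e1 : K * U ≤ K * U ^ 3 := mul_le_mul_of_nonneg_left (hU2.trans hU23) hK.le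
    have e2 : 0 ≤ K ^ 3 * U ^ 3 := by positivity
    nlinarith [pow_pos (show 0 < U by linarith) 3]
  rw [Int.cast_max, Int.cast_abs, Int.cast_abs]
  exact max_le hx' hy

/-- **Theorem.** The Hall–Lang conjecture is equivalent to a polynomial bound for the integral
solutions of all the quartic Thue equations `F(p, q) = 1`, and to a polynomial bound for the solutions
of all the equations `F(p, q) = m`; and the relations between the exponents. -/
theorem result : (HallLang ↔ UnitThue) ∧ (HallLang ↔ Thue) ∧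
    (∀ μ : ℝ, 1 ≤ μ → AbscissaBound μ → ThueBound ((10 + 3 * μ) / 4) (3 * μ / 4)) ∧
    ∀ τ : ℝ, 0 < τ → UnitThueBound τ → AbscissaBound (max 2 (1 + 8 * τ)) := by
  have h1 : HallLang → Thue := by
    rintro ⟨K, M, hK, hM, h⟩
    have hx : AbscissaBound (max M 1) := by
      refine ⟨K, hK, fun A B x y hns hE => ?_⟩
      have h2 := h A B x y hns hE
      have h3 : ((|x| : ℤ) : ℝ) ≤ ((max |x| |y| : ℤ) : ℝ) := by exact_mod_cast le_max_left _ _
      refine (h3.trans h2).trans (mul_le_mul_of_nonneg_left ?_ hK.le)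
      exact Real.rpow_le_rpow_of_exponent_le (curve_pos hns) (le_max_left _ _)
    obtain ⟨K', hK', h4⟩ := quantitative.1 _ (le_max_right _ _) hx
    obtain ⟨μ, hμ⟩ : ∃ μ : ℝ, μ = max M 1 := ⟨_, rfl⟩
    rw [← hμ] at h4
    have hμ1 : 1 ≤ μ := by rw [hμ]; exact le_max_right _ _
    refine ⟨K', (10 + 3 * μ) / 4 + 3 * μ / 4, hK', by positivity, ?_⟩
    intro a b c d e p q m hd hm hF
    refine (h4 a b c d e p q m hd hm hF).trans ?_
    obtain ⟨Z, hZ⟩ : ∃ Z : ℝ, Z = ((max (height a b c d e) |m| : ℤ) : ℝ) := ⟨_, rfl⟩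
    have hZ1 : ((height a b c d e : ℤ) : ℝ) ≤ Z := by
      rw [hZ]; exact_mod_cast le_max_left _ _
    have hZ2 : ((|m| : ℤ) : ℝ) ≤ Z := by
      rw [hZ]; exact_mod_cast le_max_right _ _
    have hh := height_pos hd
    have hZ0 : 0 < Z := by linarith
    have hm0 : (0 : ℝ) ≤ ((|m| : ℤ) : ℝ) := by exact_mod_cast abs_nonneg m
    rw [← hZ, Real.rpow_add hZ0, mul_assoc]
    refine mul_le_mul_of_nonneg_left ?_ hK'.le
    exact mul_le_mul (Real.rpow_le_rpow (by linarith) hZ1 (by positivity))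
      (Real.rpow_le_rpow hm0 hZ2 (by positivity)) (by positivity) (by positivity)
  have h2 : Thue → UnitThue := by
    rintro ⟨K, M, hK, hM, h⟩
    refine ⟨K, M, hK, hM, fun a b c d e p q hd hF => ?_⟩
    have h3 := h a b c d e p q 1 hd one_ne_zero hF
    have h4 : max (height a b c d e) |(1 : ℤ)| = height a b c d e := by
      rw [abs_one]
      exact max_eq_left (Pool.Agent.H454.HT.ht_pos hd)
    rwa [h4] at h3
  have h3 : UnitThue → HallLang := by
    rintro ⟨K, M, hK, hM, h⟩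
    exact hall_of_abscissa (one_le_two.trans (le_max_left _ _))
      (quantitative.2 M hM ⟨K, hK, h⟩)
  exact ⟨⟨fun h => h2 (h1 h), h3⟩, ⟨h1, fun h => h3 (h2 h)⟩, quantitative.1, quantitative.2⟩

end Pool.Agent.Results.MP_a1107e_nt.QuarticThueEquations
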